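import Pool.Agent.H72.HR.Defs2
import Pool.Agent.H54.BF.SIE

/-!
Module LIB: the basis polynomials are in the box and linearly independent.
-/

set_option autoImplicit false

open MvPolynomial Module

namespace Pool.Agent.H33.HR

open Pool.Agent.H72.HR
open Pool.Agent.H72.BF (RP Gf)
open Pool.Agent.H54.BF (RP_natDegree)

noncomputable section

/-- the coefficients of a product of polynomials in the single variables -/
theorem coeff_prod_aeval {σ : Type} [Fintype σ] [DecidableEq σ] (Q : σ → Polynomial ℂ)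
    (m : σ →₀ ℕ) :
    coeff m (∏ s, Polynomial.aeval (X s : MvPolynomial σ ℂ) (Q s)) = ∏ s, (Q s).coeff (m s) := by
  obtain ⟨N, hN⟩ : ∃ N, N = (Finset.univ.sup fun s => (Q s).natDegree) + (Finset.univ.sup m) + 1 :=
    ⟨_, rfl⟩
  have h1 : ∀ s, (Q s).natDegree < N := fun s => by
    have := Finset.le_sup (f := fun s => (Q s).natDegree) (Finset.mem_univ s)
    omega
  have h2 : ∀ s, m s < N := fun s => by
    have := Finset.le_sup (f := m) (Finset.mem_univ s)
    omega
  have h3 : ∀ s, Polynomial.aeval (X s : MvPolynomial σ ℂ) (Q s) =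
      ∑ k ∈ Finset.range N, monomial (Finsupp.single s k) ((Q s).coeff k) := by
    intro s
    rw [Polynomial.aeval_eq_sum_range' (h1 s)]
    refine Finset.sum_congr rfl fun k _ => ?_
    rw [X_pow_eq_monomial, smul_monomial, smul_eq_mul, mul_one]
  have h4 : ∀ p : σ → ℕ, (∏ s, monomial (Finsupp.single s (p s)) ((Q s).coeff (p s)) :
      MvPolynomial σ ℂ) = monomial (Finsupp.equivFunOnFinite.symm p) (∏ s, (Q s).coeff (p s)) := by
    intro p
    have e : ∑ s, Finsupp.single s (p s) = Finsupp.equivFunOnFinite.symm p := by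
      ext s
      rw [Finsupp.finsetSum_apply, Finset.sum_eq_single s]
      · simp
      · intro t _ ht
        exact Finsupp.single_eq_of_ne (Ne.symm ht)
      · intro h
        exact absurd (Finset.mem_univ _) h
    rw [← MvPolynomial.monomial_sum_prod, e]
  rw [Finset.prod_congr rfl fun s _ => h3 s, Finset.prod_univ_sum, coeff_sum]
  rw [Finset.sum_eq_single (m : σ → ℕ)]
  · rw [h4, coeff_monomial, if_pos]
    ext s
    simp
  · intro p _ hp
    rw [h4, coeff_monomial, if_neg]
    intro h
    refine hp ?_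
    rw [← h]
    ext s
    simp
  · intro h
    exact absurd (Fintype.mem_piFinset.2 fun s => Finset.mem_range.2 (h2 s)) h

section
variable {ρ τ : Type} [Fintype ρ] [Fintype τ] [DecidableEq ρ] [DecidableEq τ] {h L T1 : ℕ}

theorem coeff_bas (u : Ux ρ τ h L T1) (m : ρ ⊕ τ →₀ ℕ) :
    coeff m (bas u) = (∏ i, (rp u i).coeff (m (Sum.inl i))) *
      ∏ a, (if m (Sum.inr a) = (u.2 a : ℕ) then 1 else 0 : ℂ) := by
  have e1 : bas u = ∏ s, Polynomial.aeval (X s : MvPolynomial (ρ ⊕ τ) ℂ)
      ((Sum.elim (rp u) (fun a => (Polynomial.X : Polynomial ℂ) ^ (u.2 a : ℕ)) :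
        ρ ⊕ τ → Polynomial ℂ) s) := by
    rw [Fintype.prod_sum_type]
    unfold bas
    congr 1
    refine Finset.prod_congr rfl fun a _ => ?_
    rw [Sum.elim_inr, map_pow, Polynomial.aeval_X]
  rw [e1, coeff_prod_aeval, Fintype.prod_sum_type]
  congr 1
  refine Finset.prod_congr rfl fun a _ => ?_
  rw [Sum.elim_inr, Polynomial.coeff_X_pow]

theorem rp_deg (u : Ux ρ τ h L T1) (i : ρ) :
    (rp u i).natDegree = ((u.1 i).1 : ℕ) + ((u.1 i).2 : ℕ) * h := RP_natDegree _ _ _

theorem rp_deg_lt (u : Ux ρ τ h L T1) (i : ρ) : (rp u i).natDegree < h * L := by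
  rw [rp_deg]
  have h1 := (u.1 i).1.2
  have h2 := (u.1 i).2.2
  calc ((u.1 i).1 : ℕ) + ((u.1 i).2 : ℕ) * h < h + ((u.1 i).2 : ℕ) * h := by omega
    _ = (((u.1 i).2 : ℕ) + 1) * h := by ring
    _ ≤ L * h := Nat.mul_le_mul_right h h2
    _ = h * L := mul_comm _ _

theorem rp_ne (u : Ux ρ τ h L T1) (i : ρ) : rp u i ≠ 0 :=
  mul_ne_zero (Pool.Agent.H54.BF.binP_natDegree _).2
    (pow_ne_zero _ (Pool.Agent.H54.BF.binP_natDegree h).2)

theorem bas_box (u : Ux ρ τ h L T1) : bas u ∈ box (TT (h * L) T1) := by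
  unfold box
  rw [mem_restrictSupport_iff]
  intro m hm
  rw [Finset.mem_coe, MvPolynomial.mem_support_iff, coeff_bas] at hm
  have hm1 := left_ne_zero_of_mul hm
  have hm2 := right_ne_zero_of_mul hm
  rw [Finset.prod_ne_zero_iff] at hm1 hm2
  intro s
  rcases s with i | a
  · have := Polynomial.le_natDegree_of_ne_zero (hm1 i (Finset.mem_univ i))
    exact this.trans (rp_deg_lt u i).le
  · have := hm2 a (Finset.mem_univ a)
    by_cases hh : m (Sum.inr a) = (u.2 a : ℕ)
    · rw [hh]
      exact (u.2 a).2.le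
    · rw [if_neg hh] at this
      exact absurd rfl this

/-- the leading monomial -/
def lead (u : Ux ρ τ h L T1) : ρ ⊕ τ →₀ ℕ :=
  Finsupp.equivFunOnFinite.symm (Sum.elim (fun i => (rp u i).natDegree) fun a => (u.2 a : ℕ))

theorem bas_ind (p : Ux ρ τ h L T1 → ℤ) (hp : ∑ u, (p u : ℂ) • bas u = 0) : p = 0 := by
  by_contra hne
  obtain ⟨u₀, hu₀⟩ := Function.ne_iff.1 hne
  have hex : (Finset.univ.filter fun u => p u ≠ 0).Nonempty :=
    ⟨u₀, Finset.mem_filter.2 ⟨Finset.mem_univ _, hu₀⟩⟩
  obtain ⟨u, hu, hmax⟩ := Finset.exists_max_image _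
    (fun u : Ux ρ τ h L T1 => ∑ i, (rp u i).natDegree) hex
  rw [Finset.mem_filter] at hu
  have hc := congrArg (coeff (lead u)) hp
  rw [coeff_sum, coeff_zero, Finset.sum_eq_single u] at hc
  · rw [coeff_smul, coeff_bas, smul_eq_mul, mul_eq_zero] at hc
    rcases hc with hc | hc
    · exact hu.2 (by exact_mod_cast hc)
    · rw [mul_eq_zero] at hc
      rcases hc with hc | hc
      · rw [Finset.prod_eq_zero_iff] at hc
        obtain ⟨i, _, hi⟩ := hc
        have : (lead u) (Sum.inl i) = (rp u i).natDegree := rfl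
        rw [this, Polynomial.coeff_natDegree, Polynomial.leadingCoeff_eq_zero] at hi
        exact rp_ne u i hi
      · rw [Finset.prod_eq_zero_iff] at hc
        obtain ⟨a, _, ha⟩ := hc
        have : (lead u) (Sum.inr a) = (u.2 a : ℕ) := rfl
        rw [this, if_pos rfl] at ha
        exact one_ne_zero ha
  · intro v _ hvu
    rw [coeff_smul, coeff_bas, smul_eq_mul]
    by_cases hpv : p v = 0
    · rw [hpv, Int.cast_zero, zero_mul]
    · by_contra hcc
      have h1 := right_ne_zero_of_mul hcc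
      have h2 := left_ne_zero_of_mul h1
      have h3 := right_ne_zero_of_mul h1
      rw [Finset.prod_ne_zero_iff] at h2 h3
      have h4 : ∀ i, (rp u i).natDegree ≤ (rp v i).natDegree := fun i =>
        Polynomial.le_natDegree_of_ne_zero (h2 i (Finset.mem_univ i))
      have h5 := hmax v (Finset.mem_filter.2 ⟨Finset.mem_univ _, hpv⟩)
      have h6 : ∀ i, (rp u i).natDegree = (rp v i).natDegree := by
        have := (Finset.sum_eq_sum_iff_of_le fun i (_ : i ∈ Finset.univ) => h4 i).1
          (le_antisymm (Finset.sum_le_sum fun i _ => h4 i) h5)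
        exact fun i => this i (Finset.mem_univ i)
      have h7 : ∀ a, u.2 a = v.2 a := by
        intro a
        have h8 := h3 a (Finset.mem_univ a)
        have h9 : (lead u) (Sum.inr a) = (u.2 a : ℕ) := rfl
        rw [h9] at h8
        by_cases hh : (u.2 a : ℕ) = (v.2 a : ℕ)
        · exact Fin.ext hh
        · rw [if_neg hh] at h8
          exact absurd rfl h8
      refine hvu (Prod.ext (funext fun i => ?_) (funext fun a => (h7 a).symm))
      have h8 := h6 i
      rw [rp_deg, rp_deg] at h8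
      have g1 := (u.1 i).1.2
      have g2 := (v.1 i).1.2
      have hh : 0 < h := by omega
      have g3 : ((u.1 i).1 : ℕ) = ((v.1 i).1 : ℕ) := by
        have := congrArg (· % h) h8
        simp only [Nat.add_mul_mod_self_right] at this
        rwa [Nat.mod_eq_of_lt g1, Nat.mod_eq_of_lt g2] at this
      have g4 : ((u.1 i).2 : ℕ) = ((v.1 i).2 : ℕ) := by
        rw [g3] at h8
        exact Nat.eq_of_mul_eq_mul_right hh (by omega)
      exact Prod.ext (Fin.ext g3.symm) (Fin.ext g4.symm)
  · intro h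
    exact absurd (Finset.mem_univ _) h

end

/-- target LIB of the board -/
theorem pf_LIB : T_LIB := by
  intro ρ τ _ _ _ _ h L T1 _ _ _
  exact ⟨bas_box, bas_ind⟩

end

end Pool.Agent.H33.HR
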