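import Pool.Agent.H72.HR.Targets
import Pool.Agent.H35.HR.STR

/-!
Module SLC: the zero estimate for finite zero sets.
-/

set_option autoImplicit false

open MvPolynomial Module Filter

namespace Pool.Agent.H33.HR

open Pool.Agent.H72.HR

noncomputable section

section
variable {ι : Type} [Fintype ι] [DecidableEq ι]

theorem mem_box {T : ι → ℕ} {f : MvPolynomial ι ℂ} :
    f ∈ box T ↔ ∀ m ∈ f.support, ∀ i, m i ≤ T i := by
  unfold box
  rw [mem_restrictSupport_iff]
  rfl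

theorem box_mono {T T' : ι → ℕ} (h : ∀ i, T i ≤ T' i) : (box T : Submodule ℂ _) ≤ box T' := by
  intro f hf
  rw [mem_box] at hf ⊢
  exact fun m hm i => (hf m hm i).trans (h i)

theorem box_mul {T T' : ι → ℕ} {f f' : MvPolynomial ι ℂ} (h : f ∈ box T) (h' : f' ∈ box T') :
    f * f' ∈ box (fun i => T i + T' i) := by
  classical
  rw [mem_box] at h h' ⊢
  intro m hm i
  have := support_mul f f' hm
  rw [Finset.mem_add] at this
  obtain ⟨a, ha, b, hb, rfl⟩ := this
  rw [Finsupp.add_apply]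
  exact add_le_add (h a ha i) (h' b hb i)

theorem box_exhaust {T : ι → ℕ} (hT : ∀ i, 1 ≤ T i) (f : MvPolynomial ι ℂ) :
    ∃ m, f ∈ box (fun i => m * T i) := by
  refine ⟨f.support.sup fun m => Finset.univ.sup m, ?_⟩
  rw [mem_box]
  intro m hm i
  calc m i ≤ Finset.univ.sup m := Finset.le_sup (f := m) (Finset.mem_univ i)
    _ ≤ f.support.sup fun m => Finset.univ.sup m :=
      Finset.le_sup (f := fun m : ι →₀ ℕ => Finset.univ.sup m) hm
    _ ≤ _ := Nat.le_mul_of_pos_right _ (hT i)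

theorem box_finrank (T : ι → ℕ) : finrank ℂ (box T : Submodule ℂ (MvPolynomial ι ℂ)) ≤
    ∏ i, (T i + 1) := by
  classical
  obtain ⟨s, hs⟩ : ∃ s : Finset (MvPolynomial ι ℂ), s = (Fintype.piFinset fun i =>
      Finset.range (T i + 1)).image fun p : ι → ℕ =>
        (monomial (Finsupp.equivFunOnFinite.symm p) 1 : MvPolynomial ι ℂ) := ⟨_, rfl⟩
  have h1 : (box T : Submodule ℂ (MvPolynomial ι ℂ)) ≤ Submodule.span ℂ (s : Set _) := by
    unfold box
    rw [restrictSupport_eq_span]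
    refine Submodule.span_mono ?_
    rintro _ ⟨m, hm, rfl⟩
    rw [hs, Finset.mem_coe, Finset.mem_image]
    refine ⟨m, ?_, ?_⟩
    · rw [Fintype.mem_piFinset]
      exact fun i => Finset.mem_range.2 (Nat.lt_succ_of_le (hm i))
    · have e : Finsupp.equivFunOnFinite.symm ⇑m = m := Finsupp.equivFunOnFinite.symm_apply_apply m
      beta_reduce
      rw [e]
  have : FiniteDimensional ℂ (Submodule.span ℂ (s : Set (MvPolynomial ι ℂ))) :=
    FiniteDimensional.span_finset ℂ s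
  calc finrank ℂ (box T : Submodule ℂ (MvPolynomial ι ℂ)) ≤
      finrank ℂ (Submodule.span ℂ (s : Set (MvPolynomial ι ℂ))) := Submodule.finrank_mono h1
    _ ≤ s.card := finrank_span_finset_le_card s
    _ ≤ (Fintype.piFinset fun i => Finset.range (T i + 1)).card := by
        rw [hs]
        exact Finset.card_image_le
    _ = ∏ i, (T i + 1) := by
        rw [Fintype.card_piFinset]
        simp

/-- intersection of the weight ideals -/
theorem ideal_wt (hWT : T_WT) (κ : ι → Bool) (W : Submodule ℂ (ι → ℂ)) (S : ℕ)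
    (F : Finset (ι → ℂ)) : ∃ Fid : ℕ → Ideal (MvPolynomial ι ℂ),
      ∀ n f, f ∈ Fid n ↔ ∀ g ∈ F, f ∈ wt κ W S g n := by
  have h : ∀ (g : ι → ℂ) (n : ℕ), ∃ I : Ideal (MvPolynomial ι ℂ),
      (I : Set (MvPolynomial ι ℂ)) = wt κ W S g n := fun g n => (hWT ι κ W S g).1 n
  choose J hJ using h
  refine ⟨fun n => ⨅ g : F, J g.1 n, fun n f => ?_⟩
  rw [Submodule.mem_iInf]
  constructor
  · intro hf g hg
    rw [← hJ]
    exact hf ⟨g, hg⟩
  · intro hf g
    have := hf g.1 g.2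
    rw [← hJ] at this
    exact this

/-- a prime ideal which contains a multiplicative variable -/
theorem prime_mult (hWT : T_WT) (κ : ι → Bool) (W : Submodule ℂ (ι → ℂ)) (S : ℕ)
    (F : Finset (ι → ℂ)) (Fid : ℕ → Ideal (MvPolynomial ι ℂ))
    (hF : ∀ n f, f ∈ Fid n ↔ ∀ g ∈ F, f ∈ wt κ W S g n) (I : Ideal (MvPolynomial ι ℂ)) (i : ι)
    (hi : κ i = true) (hX : X i ∈ I) (n : ℕ) : I ⊔ Fid n = ⊤ := by
  obtain ⟨N, hN⟩ : ∃ N, N = (S + 1) * n := ⟨_, rfl⟩
  obtain ⟨P, hP⟩ : ∃ P : MvPolynomial ι ℂ, P =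
      ∏ g ∈ F, (X i - C (Complex.exp (g i))) ^ N := ⟨_, rfl⟩
  have h1 : P ∈ Fid n := by
    rw [hF]
    intro g hg
    obtain ⟨J, hJ⟩ := (hWT ι κ W S g).1 n
    have h2 : (X i - C (Complex.exp (g i)) : MvPolynomial ι ℂ) ^ N ∈ wt κ W S g n := by
      rw [hN]
      refine (hWT ι κ W S g).2.2.2.2 _ n ?_
      simp [pt, hi]
    rw [← hJ] at h2 ⊢
    rw [hP, ← Finset.mul_prod_erase F _ hg]
    exact J.mul_mem_right _ h2
  have h2 : ((∏ g ∈ F, (-Complex.exp (g i)) ^ N : ℂ)) ≠ 0 := by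
    rw [Finset.prod_ne_zero_iff]
    exact fun g _ => pow_ne_zero _ (neg_ne_zero.2 (Complex.exp_ne_zero _))
  have h3 : P - C (∏ g ∈ F, (-Complex.exp (g i)) ^ N) ∈ I := by
    rw [← Ideal.Quotient.eq, hP, map_prod, map_prod, map_prod]
    refine Finset.prod_congr rfl fun g _ => ?_
    rw [map_pow, map_sub, Ideal.Quotient.eq_zero_iff_mem.2 hX, zero_sub, map_pow, map_pow, map_neg,
      map_neg]
  have h4 : (C (∏ g ∈ F, (-Complex.exp (g i)) ^ N) : MvPolynomial ι ℂ) ∈ I ⊔ Fid n := by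
    have : (C (∏ g ∈ F, (-Complex.exp (g i)) ^ N) : MvPolynomial ι ℂ) =
        -(P - C (∏ g ∈ F, (-Complex.exp (g i)) ^ N)) + P := by ring
    rw [this]
    exact Submodule.add_mem_sup (I.neg_mem h3) h1
  refine Ideal.eq_top_of_isUnit_mem _ h4 ?_
  exact (isUnit_iff_ne_zero.2 h2).map C

/-- a prime ideal without multiplicative variables and with a finite zero set -/
theorem prime_fin (κ : ι → Bool) (L : Set (MvPolynomial ι ℂ))
    (hfin : {a : ι → ℂ | (∀ i, κ i = true → a i ≠ 0) ∧ ∀ h ∈ L, eval a h = 0}.Finite)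
    (I : Ideal (MvPolynomial ι ℂ)) (hI : I.IsPrime) (hL : L ⊆ I)
    (hX : ∀ i, κ i = true → X i ∉ I) : Module.Finite ℂ (MvPolynomial ι ℂ ⧸ I) := by
  classical
  obtain ⟨Z, hZ⟩ : ∃ Z : Finset (ι → ℂ), ∀ a, a ∈ Z ↔
      (∀ i, κ i = true → a i ≠ 0) ∧ ∀ h ∈ L, eval a h = 0 :=
    ⟨hfin.toFinset, fun a => by rw [Set.Finite.mem_toFinset]; rfl⟩
  have key : ∀ j, (∏ a ∈ Z, (X j - C (a j)) : MvPolynomial ι ℂ) ∈ I := by
    intro j
    obtain ⟨u, hu⟩ : ∃ u : MvPolynomial ι ℂ, u =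
        ∏ i ∈ Finset.univ.filter (fun i => κ i = true), X i := ⟨_, rfl⟩
    have hu' : u ∉ I := by
      intro h
      rw [hu, hI.prod_mem_iff] at h
      obtain ⟨i, hi, hi'⟩ := h
      exact hX i (Finset.mem_filter.1 hi).2 hi'
    have hrad : u * ∏ a ∈ Z, (X j - C (a j)) ∈ I.radical := by
      rw [← vanishingIdeal_zeroLocus_eq_radical (K := ℂ) I, mem_vanishingIdeal_iff]
      intro x hx
      rw [mem_zeroLocus_iff] at hx
      rw [map_mul, hu, map_prod, map_prod]
      by_cases hk : ∀ i, κ i = true → x i ≠ 0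
      · have hxZ : x ∈ Z := by
          rw [hZ]
          refine ⟨hk, fun h hh => ?_⟩
          have := hx h (hL hh)
          rwa [aeval_eq_eval] at this
        rw [Finset.prod_eq_zero hxZ, mul_zero]
        simp
      · push Not at hk
        obtain ⟨i, hi, hi0⟩ := hk
        rw [Finset.prod_eq_zero (Finset.mem_filter.2 ⟨Finset.mem_univ i, hi⟩), zero_mul]
        simp [hi0]
    rw [hI.radical] at hrad
    exact (hI.mem_or_mem hrad).resolve_left hu'
  have hint : ∀ f : MvPolynomial ι ℂ, IsIntegral ℂ (Ideal.Quotient.mk I f) := by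
    intro f
    induction f using MvPolynomial.induction_on with
    | C a => exact isIntegral_algebraMap (R := ℂ) (x := a)
    | add p q hp hq =>
      rw [map_add]
      exact hp.add hq
    | mul_X p j hp =>
      rw [map_mul]
      refine hp.mul ⟨∏ a ∈ Z, (Polynomial.X - Polynomial.C (a j)),
        Polynomial.monic_prod_of_monic _ _ fun a _ => Polynomial.monic_X_sub_C _, ?_⟩
      rw [← Polynomial.aeval_def, map_prod]
      have h1 := Ideal.Quotient.eq_zero_iff_mem.2 (key j)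
      rw [map_prod] at h1
      rw [← h1]
      refine Finset.prod_congr rfl fun a _ => ?_
      rw [map_sub, Polynomial.aeval_X, Polynomial.aeval_C, map_sub]
      rfl
  have : Algebra.IsIntegral ℂ (MvPolynomial ι ℂ ⧸ I) := ⟨fun x => by
    obtain ⟨f, rfl⟩ := Ideal.Quotient.mk_surjective x
    exact hint f⟩
  exact Algebra.IsIntegral.finite

/-- the inequality for every `m` -/
theorem slc_ineq (hNEF : T_NEF) (hWT : T_WT) (hMUL : T_MUL) (κ : ι → Bool) (T : ι → ℕ)
    (W : Submodule ℂ (ι → ℂ)) (S : ℕ) (L : Submodule ℂ (MvPolynomial ι ℂ)) (F : Finset (ι → ℂ))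
    (hT : ∀ i, 1 ≤ T i) (hLT : L ≤ box T)
    (hfin : {a : ι → ℂ | (∀ i, κ i = true → a i ≠ 0) ∧ ∀ h ∈ L, eval a h = 0}.Finite)
    (hinj : ∀ g ∈ F, ∀ g' ∈ F, pt κ g = pt κ g' → g = g')
    (hz : ∀ g ∈ F, ∀ h ∈ L, ∀ w ∈ W, ∀ m ≤ S, eval (pt κ g) ((dv κ w)^[m] h) = 0)
    (hι : 1 ≤ Fintype.card ι) : ∃ c : ℕ, ∀ m : ℕ,
      F.card * ((S + 1) ^ finrank ℂ W * m ^ Fintype.card ι) ≤
        ∏ i, ((Fintype.card ι * m + c) * T i + 1) := by
  obtain ⟨Fid, hF⟩ := ideal_wt hWT κ W S F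
  obtain ⟨c, hc⟩ := hNEF ℂ (MvPolynomial ι ℂ) (fun m => box (fun i => m * T i)) Fid
    (L : Set (MvPolynomial ι ℂ))
    (fun m m' hm => box_mono fun i => Nat.mul_le_mul_right _ hm)
    (fun m => Pool.Agent.H35.HR.box_finite _)
    (fun a => box_exhaust hT a)
    (fun m n a b ha hb => by
      have := box_mul ha hb
      refine box_mono (fun i => ?_) this
      rw [add_mul])
    (by
      rw [Ideal.eq_top_iff_one, hF]
      intro g _
      rw [(hWT ι κ W S g).2.1]
      trivial)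
    (fun f hf n g hg => by
      rw [hF] at hg ⊢
      intro p hp
      have h1 : f ∈ wt κ W S p 1 := (hWT ι κ W S p).2.2.2.1 f fun w hw m hm => hz p hp f hf w hw m hm
      have h2 := (hWT ι κ W S p).2.2.1 1 n f h1 g (hg p hp)
      rwa [add_comm] at h2)
    (fun f hf => by
      have h1 := hLT hf
      refine box_mono (fun i => ?_) h1
      rw [one_mul])
    (fun I hI hLI => by
      by_cases h : ∃ i, κ i = true ∧ X i ∈ I
      · obtain ⟨i, hi, hX⟩ := h
        exact Or.inr fun n => prime_mult hWT κ W S F Fid hF I i hi hX n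
      · push Not at h
        exact Or.inl (prime_fin κ (L : Set (MvPolynomial ι ℂ)) hfin I hI hLI h))
  refine ⟨c, fun m => ?_⟩
  obtain ⟨h1, h2⟩ := hc (Fintype.card ι * m)
  have h3 := hMUL ι κ W S m F (Fid (Fintype.card ι * m)) hι hinj
    (fun f hf g hg => (hF _ f).1 hf g hg) h1
  exact (h3.trans h2).trans (box_finrank _)

/-- passage to the limit -/
theorem slc_lim (k : ℕ) (hk : k = Fintype.card ι) (T : ι → ℕ) (A c : ℕ)
    (h : ∀ m : ℕ, A * m ^ k ≤ ∏ i, ((k * m + c) * T i + 1)) : A ≤ k ^ k * ∏ i, T i := by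
  have h1 : Tendsto (fun m : ℕ => ∏ i : ι, ((k : ℝ) * T i + (c * T i + 1) / m)) atTop
      (nhds (∏ i : ι, ((k : ℝ) * T i + 0))) := by
    refine tendsto_finset_prod _ fun i _ => ?_
    exact tendsto_const_nhds.add (tendsto_const_nhds.div_atTop tendsto_natCast_atTop_atTop)
  have h2 : ∀ᶠ m : ℕ in atTop, (A : ℝ) ≤ ∏ i : ι, ((k : ℝ) * T i + (c * T i + 1) / m) := by
    filter_upwards [eventually_gt_atTop 0] with m hm
    have hm' : (0 : ℝ) < m := by exact_mod_cast hm
    have h3 : (A : ℝ) * (m : ℝ) ^ k ≤ ∏ i : ι, (((k : ℝ) * m + c) * T i + 1) := by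
      exact_mod_cast h m
    have h4 : ∏ i : ι, (((k : ℝ) * m + c) * T i + 1) =
        (∏ i : ι, ((k : ℝ) * T i + (c * T i + 1) / m)) * (m : ℝ) ^ k := by
      rw [hk, ← Finset.card_univ, ← Finset.prod_const, ← Finset.prod_mul_distrib]
      refine Finset.prod_congr rfl fun i _ => ?_
      field_simp
      ring
    rw [h4] at h3
    exact le_of_mul_le_mul_right h3 (pow_pos hm' k)
  have h5 := ge_of_tendsto h1 h2
  have h6 : ∏ i : ι, ((k : ℝ) * T i + 0) = ((k ^ k * ∏ i, T i : ℕ) : ℝ) := by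
    simp only [add_zero]
    rw [Finset.prod_mul_distrib, Finset.prod_const, Finset.card_univ, ← hk]
    push_cast
    rfl
  rw [h6] at h5
  exact_mod_cast h5

end

/-- target SLC of the board -/
theorem pf_SLC (hNEF : T_NEF) (hWT : T_WT) (hMUL : T_MUL) : T_SLC := by
  intro ι _ _ κ T W S L F hT hLT hfin hinj hz
  rcases Nat.eq_zero_or_pos (Fintype.card ι) with h0 | h0
  · have hemp : IsEmpty ι := Fintype.card_eq_zero_iff.1 h0
    have h1 : F.card ≤ 1 := Finset.card_le_one.2 fun a _ b _ => Subsingleton.elim a b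
    have h2 : finrank ℂ W = 0 := by
      have h3 : finrank ℂ W ≤ finrank ℂ (ι → ℂ) := Submodule.finrank_le W
      rw [finrank_fintype_fun_eq_card, h0] at h3
      omega
    rw [h2, h0, pow_zero, pow_zero, mul_one, one_mul, Finset.univ_eq_empty, Finset.prod_empty]
    exact h1
  · obtain ⟨c, hc⟩ := slc_ineq hNEF hWT hMUL κ T W S L F hT hLT hfin hinj hz h0
    refine slc_lim (Fintype.card ι) rfl T _ c fun m => ?_
    rw [mul_assoc]
    exact hc m

end

end Pool.Agent.H33.HR
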