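import Pool.Agent.H53.HR.Targets

/-! Module STP of the hr board (helper53). -/

namespace Pool.Agent.H33.HR.STP

open Finset
open Pool.Agent.H53.HR
open Pool.Agent.H53.CZD (lc)

/-- `t + (t q) • z`, as a linear map. -/
def phi {V : Type} (q : V) (z : V → ZMod 2) : (V → ZMod 2) →ₗ[ZMod 2] (V → ZMod 2) where
  toFun t := t + (t q) • z
  map_add' s t := by
    simp only [Pi.add_apply, add_smul]
    abel
  map_smul' c t := by
    simp only [Pi.smul_apply, smul_eq_mul, RingHom.id_apply, smul_add, mul_smul]

theorem lin {V : Type} [DecidableEq V] (f : V → V → ZMod 2) (g : V → V → ZMod 2) (H : Set V)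
    (q : V) (z : V → ZMod 2) (hf : LinearIndepOn (ZMod 2) f H)
    (hz : z ∉ Submodule.span (ZMod 2) (f '' H)) (hg : ∀ h ∈ H, g h = phi q z (f h)) :
    LinearIndepOn (ZMod 2) g H := by
  have h1 : LinearIndependent (ZMod 2) ((phi q z) ∘ fun h : H => f h) := by
    apply LinearIndependent.map hf
    rw [Submodule.disjoint_def]
    intro x hx hk
    rw [LinearMap.mem_ker] at hk
    have hk' : x + (x q) • z = 0 := hk
    have hx' : x ∈ Submodule.span (ZMod 2) (f '' H) := by
      rw [Set.image_eq_range]; exact hx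
    have h2 : x q = 0 ∨ x q = 1 := by
      generalize x q = a
      revert a
      decide
    rcases h2 with h2 | h2
    · rw [h2, zero_smul, add_zero] at hk'
      exact hk'
    · rw [h2, one_smul] at hk'
      exfalso
      apply hz
      have h3 : z = x := by
        funext i
        have h4 : x i + z i = 0 := congrFun hk' i
        exact (CharTwo.add_eq_zero.mp h4).symm
      rw [h3]
      exact hx'
  have h2 : ((phi q z) ∘ fun h : H => f h) = fun h : H => g h := by
    funext h
    exact (hg h h.2).symm
  rw [h2] at h1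
  exact h1

theorem stp (h1 : CZY) (h2 : LTR) : STP := by
  intro V _ G Q H q hC hdis hlin hq hcard
  have hH : ∀ h ∈ (H : Set V), h ∉ Q := by
    intro h hh hQ
    exact Finset.disjoint_left.mp hdis hQ hh
  constructor
  · intro _ hz
    refine lin (nb G Q) (nb G (Q.erase q)) H q _ hlin hz ?_
    intro h hh
    exact (h2 V G Q q h (hH h hh) hq).2.1
  · intro hnc hz
    refine ⟨h1 V G Q q hC hq hcard hnc, ?_⟩
    refine lin (nb G Q) (nb (lc G q) (Q.erase q)) H q _ hlin hz ?_
    intro h hh
    obtain ⟨e1, _, _⟩ := h2 V G Q q h (hH h hh) hq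
    obtain ⟨_, e2, _⟩ := h2 V (lc G q) Q q h (hH h hh) hq
    have e3 : nb G Q q q = 0 := by simp [nb]
    have e4 : nb (lc G q) Q h q = nb G Q h q := by
      rw [e1]
      simp [e3]
    rw [e2, e4, e1]
    change _ = nb G Q h + (nb G Q h q) • (nb G Q q + Pi.single q 1)
    rw [smul_add, add_assoc]

end Pool.Agent.H33.HR.STP
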