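import Pool.Agent.H53.HR.Targets

/-! Module SUBC of the hr board (helper53). -/

namespace Pool.Agent.H33.HR.SUBC

open Finset
open Pool.Agent.H53.HR

theorem subc : SUBC := by
  intro V G k m Q p x hC
  have key : ∀ l l' j j', l < l' → p l j ≠ p l' j' := by
    intro l l' j j' hl h
    obtain ⟨q, hq, hadj⟩ := hC.att l j
    rw [h] at hadj
    exact hC.antiP l l' hl j' q hq hadj.symm
  refine ⟨?_, ?_, ?_, ?_, ?_⟩
  · intro k' m' g e hg he
    refine ⟨fun l => hC.conn _, ?_, ?_, fun l j => hC.att _ _, fun l j => hC.antiX _ _, ?_,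
      fun j j' => hC.indX _ _⟩
    · intro l l' hl
      exact hC.antiQ _ _ (fun h => hl (hg.injective h))
    · intro l l' hl j
      exact hC.antiP _ _ (hg hl) _
    · intro l j j'
      rw [hC.col]
      exact he.injective.eq_iff
  · intro l l' j h
    exact (hC.antiX l' j).2 _ h ((hC.col l j j).mpr rfl)
  · intro l j j' h
    obtain ⟨q, hq, hadj⟩ := hC.att l j
    rw [h] at hadj
    exact (hC.antiX l j').2 q hq hadj.symm
  · intro hk j j' h
    have h1 := (hC.col ⟨0, hk⟩ j j).mpr rfl
    rw [h] at h1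
    exact (hC.col _ _ _).mp h1
  · intro l l' j j' h
    have h1 := (hC.col l j j).mpr rfl
    rw [h] at h1
    have h2 := (hC.col _ _ _).mp h1
    refine ⟨?_, h2.symm⟩
    rcases lt_trichotomy l l' with h3 | h3 | h3
    · exact absurd h (key _ _ _ _ h3)
    · exact h3
    · exact absurd h.symm (key _ _ _ _ h3)

end Pool.Agent.H33.HR.SUBC
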