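import Pool.Agent.H53.HR.Targets

/-! Module TRS of the hr board (helper53). -/

namespace Pool.Agent.H33.HR.TRS

open Finset
open Pool.Agent.H53.HR

open Classical in
/-- Extension by zero. -/
noncomputable def ext0 {V : Type} (Q : Finset V) : (Q → ZMod 2) →ₗ[ZMod 2] (V → ZMod 2) where
  toFun w := fun i => if h : i ∈ Q then w ⟨i, h⟩ else 0
  map_add' w w' := by
    funext i
    by_cases h : i ∈ Q <;> simp [h]
  map_smul' c w := by
    funext i
    by_cases h : i ∈ Q <;> simp [h]

theorem trs : TRS := by
  classical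
  intro V _ G Q H hcard hlin U hU U' hU' hsum
  -- the restricted vectors
  let v : ↥(H : Set V) → (Q → ZMod 2) := fun h q => nb G Q h q
  have hv : LinearIndependent (ZMod 2) v := by
    apply LinearIndependent.of_comp (ext0 Q)
    have h1 : (ext0 Q) ∘ v = fun h : ↥(H : Set V) => nb G Q h := by
      funext h i
      simp only [Function.comp, ext0, LinearMap.coe_mk, AddHom.coe_mk, v]
      by_cases hi : i ∈ Q
      · simp [hi]
      · simp [hi, nb]
    rw [h1]
    exact hlin
  have hspan : Submodule.span (ZMod 2) (Set.range v) = ⊤ := by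
    apply hv.span_eq_top_of_card_eq_finrank'
    simp [hcard]
  -- the functional
  let d : Q → ZMod 2 := fun q => (if (q : V) ∈ U then 1 else 0) + (if (q : V) ∈ U' then 1 else 0)
  let L : (Q → ZMod 2) →ₗ[ZMod 2] ZMod 2 := ∑ q, d q • LinearMap.proj q
  have hL0 : ∀ h : ↥(H : Set V), L (v h) = (0 : (Q → ZMod 2) →ₗ[ZMod 2] ZMod 2) (v h) := by
    intro h
    have e1 : ∀ T ⊆ Q, ∑ q : Q, (if (q : V) ∈ T then (1 : ZMod 2) else 0) * nb G Q h q =
        (∑ u ∈ T, nb G H u) h := by
      intro T hT
      have e2 : ∑ q : Q, (if (q : V) ∈ T then (1 : ZMod 2) else 0) * nb G Q h q =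
          ∑ q ∈ Q, (if q ∈ T then (1 : ZMod 2) else 0) * nb G Q h q := by
        rw [← Finset.sum_coe_sort Q (fun q => (if q ∈ T then (1 : ZMod 2) else 0) * nb G Q h q)]
      rw [e2, Finset.sum_apply]
      rw [← Finset.sum_subset hT (f := fun q => (if q ∈ T then (1 : ZMod 2) else 0) * nb G Q h q)]
      · apply Finset.sum_congr rfl
        intro u hu
        have hh : (h : V) ∈ H := h.2
        have hQ : u ∈ Q := hT hu
        simp [nb, hu, hh, hQ, G.adj_comm]
      · intro u _ hu
        simp [hu]
    have e3 : L (v h) = (∑ u ∈ U, nb G H u) h + (∑ u ∈ U', nb G H u) h := by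
      rw [← e1 U hU, ← e1 U' hU', ← Finset.sum_add_distrib]
      simp only [L, v, d, LinearMap.sum_apply, LinearMap.smul_apply, LinearMap.proj_apply,
        smul_eq_mul, add_mul]
    rw [e3, hsum, LinearMap.zero_apply]
    exact CharTwo.add_self_eq_zero _
  have hL : L = 0 := LinearMap.ext_on_range hspan hL0
  have hd : ∀ q : Q, d q = 0 := by
    intro q
    have h1 : L (Pi.single q 1) = 0 := by rw [hL]; rfl
    simp only [L, LinearMap.sum_apply, LinearMap.smul_apply, LinearMap.proj_apply,
      smul_eq_mul] at h1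
    rw [Finset.sum_eq_single q] at h1
    · simpa using h1
    · intro b _ hb
      rw [Pi.single_eq_of_ne hb]
      simp
    · intro hq
      exact absurd (Finset.mem_univ q) hq
  ext i
  constructor
  · intro hi
    by_contra hi'
    have := hd ⟨i, hU hi⟩
    simp [d, hi, hi'] at this
  · intro hi
    by_contra hi'
    have := hd ⟨i, hU' hi⟩
    simp [d, hi, hi'] at this

end Pool.Agent.H33.HR.TRS
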