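import Pool.Agent.H33.HRA.VALA

/-!
Module VAL: values of the derivatives of the basis polynomials.
-/

set_option autoImplicit false

namespace Pool.Agent.H33.HR

/-- target VAL of the board -/
theorem pf_VAL : Pool.Agent.H72.HR.T_VAL := Pool.Agent.H33.HRA.pf_VAL

end Pool.Agent.H33.HR
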